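import Mathlib.FieldTheory.Finite.Extension
import Mathlib.FieldTheory.IsAlgClosed.Basic
import Mathlib.FieldTheory.Perfect
import Mathlib.Data.Complex.Basic

/-! Newton's identities for the `L`-function of a multiplicative function on monic polynomials
over a finite field. -/

namespace Pool.Agent.Lib.Weil

open Polynomial Finset

noncomputable section

variable (F : Type*) [Field F] [Fintype F]

lemma finite_monic (n : ℕ) : {A : F[X] | A.Monic ∧ A.natDegree = n}.Finite := by
  refine Set.Finite.of_finite_image (f := fun A (i : Fin n) => A.coeff i) (Set.toFinite _) ?_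
  rintro A ⟨hA, hA'⟩ B ⟨hB, hB'⟩ h
  ext i
  rcases lt_trichotomy i n with hi | rfl | hi
  · exact congrFun h ⟨i, hi⟩
  · rw [← hA', hA.coeff_natDegree, hA', ← hB', hB.coeff_natDegree]
  · rw [coeff_eq_zero_of_natDegree_lt (hA' ▸ hi), coeff_eq_zero_of_natDegree_lt (hB' ▸ hi)]

/-- the monic polynomials of degree `n` -/
def Mon (n : ℕ) : Finset F[X] := (finite_monic F n).toFinset

variable {F} in
lemma mem_Mon {n : ℕ} {A : F[X]} : A ∈ Mon F n ↔ A.Monic ∧ A.natDegree = n := by
  simp [Mon]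

/-- iterated Frobenius -/
def fr (R : Type*) [CommRing R] [Algebra F R] (i : ℕ) : R →ₐ[F] R :=
  FiniteField.frobeniusAlgHom F R ^ i

lemma fr_apply {R : Type*} [CommRing R] [Algebra F R] (i : ℕ) (x : R) :
    fr F R i x = x ^ Fintype.card F ^ i := by
  rw [fr, AlgHom.coe_pow, FiniteField.coe_frobeniusAlgHom, pow_iterate]

variable (E : Type*) [Field E] [Algebra F E]

open Classical in
/-- the subfield with `q ^ j` elements (empty for `j = 0`) -/
def KK (j : ℕ) : Finset E := (X ^ Fintype.card F ^ j - X : E[X]).roots.toFinset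

variable {E} in
/-- the characteristic polynomial of `x` in the extension of degree `j` -/
def QQ (j : ℕ) (x : E) : F[X] := minpoly F x ^ (j / (minpoly F x).natDegree)

variable {F E}

omit [Algebra F E] in
lemma mem_KK {j : ℕ} {x : E} : x ∈ KK F E j ↔ j ≠ 0 ∧ x ^ Fintype.card F ^ j = x := by
  classical
  rcases eq_or_ne j 0 with rfl | hj
  · simp [KK]
  · rw [KK, Multiset.mem_toFinset,
      mem_roots (FiniteField.X_pow_card_pow_sub_X_ne_zero _ hj Fintype.one_lt_card)]
    simp [hj, sub_eq_zero]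

lemma card_KK [IsAlgClosed E] {j : ℕ} (hj : j ≠ 0) : (KK F E j).card = Fintype.card F ^ j := by
  classical
  obtain ⟨p, hp⟩ := CharP.exists F
  have : CharP E p := charP_of_injective_algebraMap (algebraMap F E).injective p
  obtain ⟨n, -, hn⟩ := FiniteField.card F p
  rw [KK, Multiset.toFinset_card_of_nodup (nodup_roots (galois_poly_separable p _
    (dvd_pow (hn ▸ dvd_pow_self p n.ne_zero) hj))), ← (IsAlgClosed.splits _).natDegree_eq_card_roots,
    FiniteField.X_pow_card_pow_sub_X_natDegree_eq _ hj Fintype.one_lt_card]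

variable [Algebra.IsAlgebraic F E]

lemma pow_eq_iff (j : ℕ) (x : E) :
    x ^ Fintype.card F ^ j = x ↔ (minpoly F x).natDegree ∣ j := by
  rw [(minpoly.irreducible (Algebra.IsIntegral.isIntegral x)).natDegree_dvd_iff_dvd_X_pow_card_pow_sub_X,
    minpoly.dvd_iff, Nat.card_eq_fintype_card]
  simp [sub_eq_zero]

lemma map_minpoly (x : E) : (minpoly F x).map (algebraMap F E) =
    ∏ i ∈ range (minpoly F x).natDegree, (X - C (x ^ Fintype.card F ^ i)) := by
  have hi : IsIntegral F x := Algebra.IsIntegral.isIntegral x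
  refine eq_of_monic_of_dvd_of_natDegree_le
    (monic_prod_of_monic _ _ fun i _ => monic_X_sub_C _) ((minpoly.monic hi).map _) ?_ ?_
  · refine Finset.prod_dvd_of_coprime ?_ fun i _ => ?_
    · have key : ∀ a b, a < b → b < (minpoly F x).natDegree →
          x ^ Fintype.card F ^ a ≠ x ^ Fintype.card F ^ b := by
        intro a b hab hb h
        obtain ⟨c, rfl⟩ := Nat.exists_eq_add_of_lt hab
        rw [add_assoc, pow_add, mul_comm, pow_mul, ← fr_apply, ← fr_apply] at h
        have h2 := (pow_eq_iff (c + 1) x).1 ((fr F E a).injective h).symm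
        have := Nat.le_of_dvd (Nat.succ_pos c) h2
        omega
      intro a ha b hb hab
      refine isCoprime_X_sub_C_of_isUnit_sub (sub_ne_zero.2 ?_).isUnit
      rcases lt_or_gt_of_ne hab with h | h
      · exact key a b h (mem_range.1 hb)
      · exact (key b a h (mem_range.1 ha)).symm
    · rw [dvd_iff_isRoot, IsRoot.def, eval_map_algebraMap, ← fr_apply, aeval_algHom_apply,
        minpoly.aeval, map_zero]
  · rw [natDegree_prod_of_monic _ _ fun i _ => monic_X_sub_C _, natDegree_map]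
    simp only [natDegree_X_sub_C, sum_const, card_range, smul_eq_mul, mul_one, le_refl]

lemma map_QQ {j : ℕ} {x : E} (hx : x ∈ KK F E j) : (QQ F j x).map (algebraMap F E) =
    ∏ i ∈ range j, (X - C (x ^ Fintype.card F ^ i)) := by
  obtain ⟨e, rfl⟩ := (pow_eq_iff j x).1 (mem_KK.1 hx).2
  rw [QQ, Nat.mul_div_cancel_left _ (minpoly.natDegree_pos (Algebra.IsIntegral.isIntegral x)),
    Polynomial.map_pow, map_minpoly]
  clear hx
  induction e with
  | zero => simp
  | succ e ih =>
    rw [pow_succ, ih, mul_add, mul_one, prod_range_add]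
    congr 1
    refine prod_congr rfl fun i _ => ?_
    rw [pow_add, pow_mul, (pow_eq_iff _ x).2 (dvd_mul_right _ _)]

lemma QQ_mem {j : ℕ} {x : E} (hx : x ∈ KK F E j) : QQ F j x ∈ Mon F j := by
  have hi : IsIntegral F x := Algebra.IsIntegral.isIntegral x
  refine mem_Mon.2 ⟨(minpoly.monic hi).pow _, ?_⟩
  rw [QQ, natDegree_pow, Nat.div_mul_cancel ((pow_eq_iff j x).1 (mem_KK.1 hx).2)]

lemma minpoly_pow_dvd_iff (x : E) (A : F[X]) (hA : A ≠ 0) (e : ℕ) :
    minpoly F x ^ e ∣ A ↔ e ≤ rootMultiplicity x (A.map (algebraMap F E)) := by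
  have hi : IsIntegral F x := Algebra.IsIntegral.isIntegral x
  have hP := minpoly.ne_zero hi
  have h1 : rootMultiplicity x ((minpoly F x).map (algebraMap F E)) = 1 := by
    refine le_antisymm (rootMultiplicity_le_one_of_separable
      (Separable.map (Algebra.IsSeparable.isSeparable F x)) x) ?_
    refine (rootMultiplicity_pos (map_ne_zero hP)).2 ?_
    rw [IsRoot.def, eval_map_algebraMap, minpoly.aeval]
  induction e generalizing A with
  | zero => simp
  | succ e ih =>
    have key : ∀ B : F[X], minpoly F x * B ≠ 0 → (minpoly F x ^ (e + 1) ∣ minpoly F x * B ↔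
        e + 1 ≤ rootMultiplicity x ((minpoly F x * B).map (algebraMap F E))) := by
      intro B hB
      rw [pow_succ', mul_dvd_mul_iff_left hP]
      refine (ih B (right_ne_zero_of_mul hB)).trans ?_
      rw [Polynomial.map_mul,
        rootMultiplicity_mul (by rw [← Polynomial.map_mul]; exact map_ne_zero hB), h1]
      omega
    constructor
    · intro h
      obtain ⟨B, rfl⟩ := (dvd_pow_self _ (Nat.succ_ne_zero e)).trans h
      exact (key B hA).1 h
    · intro h
      have h2 := (rootMultiplicity_pos (map_ne_zero hA)).1 ((Nat.succ_pos e).trans_le h)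
      rw [IsRoot.def, eval_map_algebraMap] at h2
      obtain ⟨B, rfl⟩ := minpoly.dvd F x h2
      exact (key B hA).2 h

open Classical in
lemma count_QQ [IsAlgClosed E] {n : ℕ} {A : F[X]} (hA : A ∈ Mon F n) :
    ∑ j ∈ range (n + 1), ∑ x ∈ KK F E j, (if QQ F j x ∣ A then 1 else 0 : ℕ) = n := by
  obtain ⟨hm, hn⟩ := mem_Mon.1 hA
  set R := (A.map (algebraMap F E)).roots with hR
  have hcard : R.card = n := by
    rw [hR, ← (IsAlgClosed.splits _).natDegree_eq_card_roots, natDegree_map, hn]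
  have h1 : ∀ j, ∑ x ∈ KK F E j, (if QQ F j x ∣ A then 1 else 0 : ℕ) =
      ∑ x ∈ R.toFinset, if x ∈ KK F E j ∧ QQ F j x ∣ A then 1 else 0 := by
    intro j
    rw [← card_filter, ← card_filter]
    congr 1
    ext x
    simp only [mem_filter, Multiset.mem_toFinset]
    refine ⟨fun h => ⟨?_, h⟩, fun h => h.2⟩
    have h2 := (minpoly_pow_dvd_iff x A hm.ne_zero _).1 h.2
    have h3 := mem_KK.1 h.1
    have h4 := Nat.div_pos (Nat.le_of_dvd (Nat.pos_of_ne_zero h3.1) ((pow_eq_iff j x).1 h3.2))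
      (minpoly.natDegree_pos (Algebra.IsIntegral.isIntegral (R := F) x))
    rw [hR, mem_roots (map_ne_zero hm.ne_zero), ← rootMultiplicity_pos (map_ne_zero hm.ne_zero)]
    omega
  simp_rw [h1]
  rw [sum_comm]
  refine (sum_congr rfl fun x _ => ?_).trans ((Multiset.toFinset_sum_count_eq R).trans hcard)
  have hd := minpoly.natDegree_pos (Algebra.IsIntegral.isIntegral (R := F) x)
  rw [← card_filter, hR, count_roots]
  set m := rootMultiplicity x (A.map (algebraMap F E)) with hm'
  rw [← Nat.add_sub_cancel (n := m) (m := 1), ← Nat.card_Icc]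
  symm
  refine card_nbij' (fun e => (minpoly F x).natDegree * e) (fun j => j / (minpoly F x).natDegree)
    ?_ ?_ ?_ ?_
  · intro e he
    obtain ⟨h2, h3⟩ := mem_Icc.1 he
    have h4 := (minpoly_pow_dvd_iff x A hm.ne_zero e).2 h3
    have h5 := natDegree_le_of_dvd h4 hm.ne_zero
    rw [natDegree_pow, hn, mul_comm] at h5
    simp only [coe_filter, mem_range, Set.mem_ofPred_eq]
    refine ⟨by omega, mem_KK.2 ⟨by positivity, (pow_eq_iff _ x).2 (dvd_mul_right _ _)⟩, ?_⟩
    rwa [QQ, Nat.mul_div_cancel_left _ hd]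
  · intro j hj
    simp only [coe_filter, mem_range, Set.mem_ofPred_eq] at hj
    have h3 := mem_KK.1 hj.2.1
    exact mem_Icc.2 ⟨Nat.div_pos (Nat.le_of_dvd (Nat.pos_of_ne_zero h3.1)
      ((pow_eq_iff j x).1 h3.2)) hd, (minpoly_pow_dvd_iff x A hm.ne_zero _).1 hj.2.2⟩
  · intro e _
    exact Nat.mul_div_cancel_left _ hd
  · intro j hj
    simp only [coe_filter, mem_range, Set.mem_ofPred_eq] at hj
    exact Nat.mul_div_cancel' ((pow_eq_iff j x).1 (mem_KK.1 hj.2.1).2)

open Classical in
lemma sum_dvd (χ : F[X] → ℂ) (hχ : ∀ A B, A.Monic → B.Monic → χ (A * B) = χ A * χ B)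
    {i j : ℕ} {P : F[X]} (hP : P ∈ Mon F j) :
    ∑ A ∈ Mon F (i + j), (if P ∣ A then χ A else 0) = (∑ B ∈ Mon F i, χ B) * χ P := by
  obtain ⟨hm, hd⟩ := mem_Mon.1 hP
  rw [← sum_filter, sum_mul]
  symm
  refine sum_bij (fun B _ => B * P) ?_ ?_ ?_ ?_
  · intro B hB
    obtain ⟨h1, h2⟩ := mem_Mon.1 hB
    exact mem_filter.2 ⟨mem_Mon.2 ⟨h1.mul hm, by rw [h1.natDegree_mul hm, h2, hd]⟩,
      dvd_mul_left _ _⟩
  · intro B _ B' _ h
    exact mul_right_cancel₀ hm.ne_zero h
  · intro A hA
    obtain ⟨h1, B, rfl⟩ := mem_filter.1 hA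
    obtain ⟨h2, h3⟩ := mem_Mon.1 h1
    have h4 : B.Monic := hm.of_mul_monic_left h2
    rw [hm.natDegree_mul h4] at h3
    exact ⟨B, mem_Mon.2 ⟨h4, by omega⟩, mul_comm _ _⟩
  · intro B hB
    exact (hχ B P (mem_Mon.1 hB).1 hm).symm

variable (E) in
/-- Newton's identities: the logarithmic derivative of the `L`-function -/
theorem newton [IsAlgClosed E] (χ : F[X] → ℂ)
    (hχ : ∀ A B, A.Monic → B.Monic → χ (A * B) = χ A * χ B) (n : ℕ) :
    n * ∑ A ∈ Mon F n, χ A = ∑ ij ∈ antidiagonal n,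
      (∑ B ∈ Mon F ij.1, χ B) * ∑ x ∈ KK F E ij.2, χ (QQ F ij.2 x) := by
  classical
  rw [← Nat.sum_antidiagonal_swap, Nat.sum_antidiagonal_eq_sum_range_succ_mk, mul_sum]
  have h1 : ∀ A ∈ Mon F n, n * χ A =
      ∑ j ∈ range (n + 1), ∑ x ∈ KK F E j, if QQ F j x ∣ A then χ A else 0 := by
    intro A hA
    nth_rewrite 1 [← count_QQ (E := E) hA]
    push_cast
    simp only [sum_mul, ite_mul, one_mul, zero_mul]
  rw [sum_congr rfl h1, sum_comm]
  refine sum_congr rfl fun j hj => ?_
  rw [sum_comm, mul_sum]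
  refine sum_congr rfl fun x hx => ?_
  have := sum_dvd χ hχ (i := n - j) (j := j) (QQ_mem hx)
  rwa [Nat.sub_add_cancel (Nat.lt_succ_iff.1 (mem_range.1 hj))] at this

end

end Pool.Agent.Lib.Weil
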