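import Mathlib.RingTheory.PowerSeries.Derivative
import Mathlib.Analysis.Complex.Polynomial.Basic
import Mathlib.Analysis.SpecificLimits.Normed
import Mathlib.Algebra.Polynomial.Splits

/-! From Newton's identities and a bound for the power sums to a bound for the first coefficient. -/

namespace Pool.Agent.Lib.Weil

open Finset Filter

/-- bounded power sums bound every term -/
lemma norm_le_of_power_sums (W : Multiset ℂ) (K ρ : ℝ) (hρ : 0 ≤ ρ)
    (h : ∀ j, ‖(W.map (· ^ (j + 1))).sum‖ ≤ K * ρ ^ (j + 1)) : ∀ w ∈ W, ‖w‖ ≤ ρ := by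
  classical
  by_contra hc
  push Not at hc
  obtain ⟨w₁, hw₁, hlt₁⟩ := hc
  obtain ⟨w₀, hw₀, hmax⟩ := W.toFinset.exists_max_image (‖·‖) ⟨w₁, Multiset.mem_toFinset.2 hw₁⟩
  rw [Multiset.mem_toFinset] at hw₀
  have hmax' : ∀ w ∈ W, ‖w‖ ≤ ‖w₀‖ := fun w hw => hmax w (Multiset.mem_toFinset.2 hw)
  have hlt : ρ < ‖w₀‖ := hlt₁.trans_le (hmax' w₁ hw₁)
  have h0 : 0 < ‖w₀‖ := hρ.trans_lt hlt
  have h0' : w₀ ≠ 0 := norm_pos_iff.1 h0
  set θ := ρ / ‖w₀‖ with hθ
  have hθ0 : 0 ≤ θ := by positivity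
  have hθ1 : θ < 1 := (div_lt_one h0).2 hlt
  set B := |K| * (1 - θ)⁻¹ + W.card + 1 with hB
  have hB0 : 0 < B := by
    have : 0 < 1 - θ := by linarith
    positivity
  set r : ℝ := B / (B + 1) with hr
  have hr0 : 0 < r := by positivity
  have hr1 : r < 1 := (div_lt_one (by positivity)).2 (by linarith)
  set z : ℂ := r / w₀ with hz
  have hzn : ‖z‖ = r / ‖w₀‖ := by rw [hz, norm_div, Complex.norm_of_nonneg hr0.le]
  have hlt1 : ∀ w ∈ W, ‖w * z‖ < 1 := fun w hw => by
    rw [norm_mul, hzn, ← mul_div_assoc, div_lt_one h0]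
    nlinarith [hmax' w hw, norm_nonneg w]
  have hsum : ∀ U : Multiset ℂ, (∀ w ∈ U, ‖w * z‖ < 1) →
      HasSum (fun j => (U.map (· ^ (j + 1))).sum * z ^ (j + 1))
        (U.map fun w => w * z * (1 - w * z)⁻¹).sum := by
    intro U
    induction U using Multiset.induction_on with
    | empty => intro _; simp
    | cons a U ih =>
      intro hU
      have h1 := (hasSum_geometric_of_norm_lt_one (hU a (Multiset.mem_cons_self _ _))).mul_left
        (a * z)
      have h2 := h1.add (ih fun w hw => hU w (Multiset.mem_cons_of_mem hw))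
      simp only [Multiset.map_cons, Multiset.sum_cons]
      have e : (fun j => (a ^ (j + 1) + (U.map (· ^ (j + 1))).sum) * z ^ (j + 1)) = fun j =>
          a * z * (a * z) ^ j + (U.map (· ^ (j + 1))).sum * z ^ (j + 1) := by
        ext j
        ring
      rw [e]
      exact h2
  have hup : ‖(W.map fun w => w * z * (1 - w * z)⁻¹).sum‖ ≤ |K| * (1 - θ)⁻¹ := by
    refine (hsum W hlt1).norm_le_of_bounded
      ((hasSum_geometric_of_lt_one hθ0 hθ1).mul_left |K|) fun j => ?_
    rw [norm_mul, norm_pow, hzn]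
    calc _ ≤ |K| * ρ ^ (j + 1) * (1 / ‖w₀‖) ^ (j + 1) := by
          gcongr
          exact (h j).trans (by gcongr; exact le_abs_self K)
      _ = |K| * (θ ^ j * θ) := by rw [hθ]; ring
      _ ≤ |K| * θ ^ j := by
          gcongr
          exact mul_le_of_le_one_right (by positivity) hθ1.le
  have hre : ∀ u : ℂ, ‖u‖ < 1 → -1 ≤ (u * (1 - u)⁻¹).re := by
    intro u hu
    have h1 : 1 - u ≠ 0 := by
      intro h1
      rw [← sub_eq_zero.1 h1] at hu
      simp at hu
    have h2 : u * (1 - u)⁻¹ = (1 - u)⁻¹ - 1 := by field_simp; ring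
    have h3 : u.re < 1 := (Complex.re_le_norm u).trans_lt hu
    rw [h2, Complex.sub_re, Complex.inv_re, Complex.one_re]
    have : 0 ≤ (1 - u).re / Complex.normSq (1 - u) :=
      div_nonneg (by simp; linarith) (Complex.normSq_nonneg _)
    linarith
  have hlow : ∀ U : Multiset ℂ, (∀ w ∈ U, ‖w * z‖ < 1) →
      -(U.card : ℝ) ≤ (U.map fun w => w * z * (1 - w * z)⁻¹).sum.re := by
    intro U
    induction U using Multiset.induction_on with
    | empty => intro _; simp
    | cons a U ih =>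
      intro hU
      have h1 := hre _ (hU a (Multiset.mem_cons_self _ _))
      have h2 := ih fun w hw => hU w (Multiset.mem_cons_of_mem hw)
      simp only [Multiset.map_cons, Multiset.sum_cons, Multiset.card_cons, Complex.add_re]
      push_cast
      linarith
  obtain ⟨U, rfl⟩ := Multiset.exists_cons_of_mem hw₀
  have h1 := hlow U fun w hw => hlt1 w (Multiset.mem_cons_of_mem hw)
  have h2 := (Complex.re_le_norm _).trans hup
  have h3 : w₀ * z * (1 - w₀ * z)⁻¹ = (B : ℂ) := by
    have h4 : (B : ℂ) + 1 ≠ 0 := by exact_mod_cast (show B + 1 ≠ 0 by positivity)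
    have h5 : w₀ * z = B / (B + 1) := by rw [hz, hr]; push_cast; field_simp
    have h6 : (1 : ℂ) - B / (B + 1) = (B + 1 : ℂ)⁻¹ := by field_simp; ring
    rw [h5, h6]
    field_simp
  rw [Multiset.map_cons, Multiset.sum_cons, h3, Complex.add_re, Complex.ofReal_re, hB,
    Multiset.card_cons] at h2
  push_cast at h2
  linarith

open PowerSeries in
/-- Newton's identities determine the power sums of the inverse roots -/
lemma exists_roots (a S : ℕ → ℂ) (N : ℕ) (h0 : a 0 = 1) (hN : ∀ n, N < n → a n = 0)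
    (hS : ∀ n : ℕ, n * a n = ∑ ij ∈ antidiagonal n, a ij.1 * S ij.2) :
    ∃ W : Multiset ℂ, W.card ≤ N ∧ ∀ j, S (j + 1) = -(W.map (· ^ (j + 1))).sum := by
  classical
  set L : Polynomial ℂ := ∑ n ∈ range (N + 1), Polynomial.monomial n (a n) with hL
  have hc : ∀ n, L.coeff n = a n := fun n => by
    rw [hL, Polynomial.finsetSum_coeff]
    simp only [Polynomial.coeff_monomial, sum_ite_eq', mem_range]
    split_ifs with h
    · rfl
    · exact (hN n (by omega)).symm
  have hL0 : L ≠ 0 := fun h => by simpa [h, h0] using hc 0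
  have hdeg : L.natDegree ≤ N :=
    Polynomial.natDegree_le_iff_coeff_eq_zero.2 fun n hn => (hc n).trans (hN n hn)
  have hroot : ∀ ζ ∈ L.roots, ζ ≠ 0 := by
    rintro ζ hζ rfl
    have := (Polynomial.mem_roots hL0).1 hζ
    rw [Polynomial.IsRoot.def, ← Polynomial.coeff_zero_eq_eval_zero, hc, h0] at this
    exact one_ne_zero this
  let τ : ℂ → ℂ⟦X⟧ := fun ζ => mk fun j => -ζ⁻¹ ^ (j + 1)
  have hrel : ∀ (c : ℂ) (U : Multiset ℂ), (∀ ζ ∈ U, ζ ≠ 0) →
      d⁄dX ℂ ((Polynomial.C c * (U.map fun ζ => Polynomial.X - Polynomial.C ζ).prod :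
        Polynomial ℂ) : ℂ⟦X⟧) =
      ((Polynomial.C c * (U.map fun ζ => Polynomial.X - Polynomial.C ζ).prod :
        Polynomial ℂ) : ℂ⟦X⟧) * (U.map τ).sum := by
    intro c U
    induction U using Multiset.induction_on with
    | empty => intro _; simp [derivative_C]
    | cons ζ U ih =>
      intro hU
      have h1 := ih fun w hw => hU w (Multiset.mem_cons_of_mem hw)
      have h2 : ζ ≠ 0 := hU ζ (Multiset.mem_cons_self _ _)
      have h3 : (X - C ζ) * τ ζ = 1 := by
        ext n
        rcases n with _ | n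
        · simp [τ, h2]
        · simp only [τ, sub_mul, map_sub, coeff_succ_X_mul, coeff_C_mul, coeff_mk, coeff_one]
          simp only [Nat.succ_ne_zero, if_false]
          linear_combination ζ⁻¹ ^ (n + 1) * mul_inv_cancel₀ h2
      rw [Multiset.map_cons, Multiset.prod_cons, mul_left_comm, Multiset.map_cons,
        Multiset.sum_cons, Polynomial.coe_mul]
      generalize ((Polynomial.C c * (U.map fun ζ => Polynomial.X - Polynomial.C ζ).prod :
        Polynomial ℂ) : ℂ⟦X⟧) = g at h1 ⊢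
      rw [Derivation.leibniz]
      simp only [Polynomial.coe_sub, Polynomial.coe_X, Polynomial.coe_C, map_sub, derivative_X,
        derivative_C, smul_eq_mul]
      linear_combination (X - C ζ) * h1 - g * h3
  have h1 := hrel L.leadingCoeff L.roots hroot
  rw [← (IsAlgClosed.splits L).eq_prod_roots] at h1
  have h2 : X * d⁄dX ℂ (L : ℂ⟦X⟧) = (L : ℂ⟦X⟧) * mk S := by
    ext n
    rw [coeff_mul n (L : ℂ⟦X⟧)]
    simp only [Polynomial.coeff_coe, hc, coeff_mk]
    rw [← hS]
    rcases n with _ | n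
    · simp
    · rw [coeff_succ_X_mul, coeff_derivative, Polynomial.coeff_coe, hc]
      push_cast
      ring
  rw [h1, mul_left_comm] at h2
  have h3 := mul_left_cancel₀ (by exact_mod_cast hL0 : (L : ℂ⟦X⟧) ≠ 0) h2
  refine ⟨L.roots.map (·⁻¹), ?_, fun j => ?_⟩
  · rw [Multiset.card_map]
    exact (Polynomial.card_roots' L).trans hdeg
  · have h4 := congrArg (coeff (j + 1)) h3
    rw [coeff_succ_X_mul, coeff_mk, map_multiset_sum, Multiset.map_map] at h4
    rw [← h4, Multiset.map_map, ← Multiset.sum_map_neg]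
    simp [τ]

/-- the Riemann hypothesis for an `L`-polynomial from a bound over even degree extensions -/
theorem norm_first_le (a S : ℕ → ℂ) (N : ℕ) (h0 : a 0 = 1) (hN : ∀ n, N < n → a n = 0)
    (hS : ∀ n : ℕ, n * a n = ∑ ij ∈ antidiagonal n, a ij.1 * S ij.2) (K q : ℝ) (hq : 0 < q)
    (hK : ∀ᶠ ν : ℕ in atTop, ‖S (2 * ν)‖ ≤ K * q ^ ν) : ‖a 1‖ ≤ N * Real.sqrt q := by
  obtain ⟨W, hW, hp⟩ := exists_roots a S N h0 hN hS
  obtain ⟨ν₀, hν₀⟩ := eventually_atTop.1 hK
  have h1 := norm_le_of_power_sums (W.map (· ^ 2))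
    (|K| + ∑ i ∈ range ν₀, ‖S (2 * i)‖ / q ^ i) q hq.le fun j => by
      have e : ((W.map (· ^ 2)).map (· ^ (j + 1))).sum = -S (2 * (j + 1)) := by
        rw [show 2 * (j + 1) = 2 * j + 1 + 1 by ring, hp, neg_neg, Multiset.map_map]
        congr 2
        ext w
        simp only [Function.comp]
        ring
      rw [e, norm_neg]
      have h2 : 0 ≤ ∑ i ∈ range ν₀, ‖S (2 * i)‖ / q ^ i := by positivity
      by_cases hj : ν₀ ≤ j + 1
      · refine (hν₀ _ hj).trans ?_
        gcongr
        linarith [le_abs_self K]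
      · rw [← div_le_iff₀ (by positivity)]
        have := single_le_sum (f := fun i => ‖S (2 * i)‖ / q ^ i) (s := range ν₀)
          (fun _ _ => by positivity) (mem_range.2 (not_le.1 hj))
        linarith [abs_nonneg K]
  have h2 : ∀ w ∈ W, ‖w‖ ≤ Real.sqrt q := fun w hw => by
    refine Real.le_sqrt_of_sq_le ?_
    simpa using h1 _ (Multiset.mem_map_of_mem _ hw)
  have h3 : a 1 = S 1 := by
    have h4 := hS 0
    have h5 := hS 1
    simp [h0] at h4
    simpa [Nat.antidiagonal_succ, h0, ← h4] using h5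
  rw [h3, hp 0, norm_neg]
  refine (norm_multiset_sum_le _).trans ?_
  refine (Multiset.sum_le_card_nsmul _ (Real.sqrt q) ?_).trans ?_
  · simpa using h2
  · simp only [Multiset.card_map, nsmul_eq_mul]
    gcongr

end Pool.Agent.Lib.Weil
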