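import Pool.Agent.Lib.Weil.Stepanov
import Pool.Agent.Lib.Weil.PowerSum
import Pool.Agent.Lib.Weil.LFun
import Mathlib.NumberTheory.LegendreSymbol.AddCharacter
import Mathlib.Analysis.SpecialFunctions.Complex.CircleAddChar
import Mathlib.FieldTheory.IsAlgClosed.AlgebraicClosure

/-! Weil's bound for additive character sums of rational functions with simple poles. -/

namespace Pool.Agent.Lib.Weil

open Polynomial Finset Filter

noncomputable section

section Lam

variable {ι E : Type*} [Field E] (S : Finset ι) (a c : ι → E) (t : E)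

/-- the sum of the rational function over the roots of a monic polynomial -/
def lam (A : E[X]) : E :=
  ∑ s ∈ S, c s * (-(derivative A).eval (a s) / A.eval (a s)) - t * A.nextCoeff

/-- the rational function -/
def RR (x : E) : E := ∑ s ∈ S, c s * (x - a s)⁻¹ + t * x

lemma lam_mul {A B : E[X]} (hA : A.Monic) (hB : B.Monic) (hA' : ∀ s ∈ S, A.eval (a s) ≠ 0)
    (hB' : ∀ s ∈ S, B.eval (a s) ≠ 0) :
    lam S a c t (A * B) = lam S a c t A + lam S a c t B := by
  have h : ∑ s ∈ S, c s * (-(derivative (A * B)).eval (a s) / (A * B).eval (a s)) =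
      ∑ s ∈ S, c s * (-(derivative A).eval (a s) / A.eval (a s)) +
        ∑ s ∈ S, c s * (-(derivative B).eval (a s) / B.eval (a s)) := by
    rw [← sum_add_distrib]
    refine sum_congr rfl fun s hs => ?_
    have h1 := hA' s hs
    have h2 := hB' s hs
    simp only [derivative_mul, eval_add, eval_mul]
    field_simp
    ring
  rw [lam, lam, lam, h, hA.nextCoeff_mul hB]
  ring

lemma lam_X_sub_C (x : E) : lam S a c t (X - C x) = RR S a c t x := by
  rw [lam, RR, nextCoeff_X_sub_C]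
  simp only [derivative_X_sub_C, eval_one, eval_sub, eval_X, eval_C, mul_neg, sub_neg_eq_add]
  congr 1
  refine sum_congr rfl fun s _ => ?_
  rw [← neg_sub x, neg_div_neg_eq, one_div]

lemma lam_prod (x : ℕ → E) (hx : ∀ i, ∀ s ∈ S, x i ≠ a s) (j : ℕ) :
    lam S a c t (∏ i ∈ range j, (X - C (x i))) = ∑ i ∈ range j, RR S a c t (x i) := by
  induction j with
  | zero => simp [lam, nextCoeff]
  | succ j ih =>
    rw [prod_range_succ, sum_range_succ, lam_mul S a c t
      (monic_prod_of_monic _ _ fun i _ => monic_X_sub_C _) (monic_X_sub_C _), ih, lam_X_sub_C]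
    · intro s hs
      rw [eval_prod]
      exact prod_ne_zero_iff.2 fun i _ => by simpa [sub_eq_zero] using (hx i s hs).symm
    · intro s hs
      simpa [sub_eq_zero] using (hx j s hs).symm

lemma map_lam {E' : Type*} [Field E'] (f : E →+* E') (A : E[X]) :
    f (lam S a c t A) = lam S (fun s => f (a s)) (fun s => f (c s)) (f t) (A.map f) := by
  simp [lam, derivative_map, eval_map_apply, nextCoeff_map_eq]

end Lam

variable {F : Type*} [Field F] [Fintype F] [DecidableEq F] (ψ : AddChar F ℂ) (S : Finset F)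
  (c : F → F) (t : F)

/-- the multiplicative function attached to the rational function -/
def chi (A : F[X]) : ℂ := if ∀ s ∈ S, A.eval s ≠ 0 then ψ (lam S id c t A) else 0

lemma chi_mul (A B : F[X]) (hA : A.Monic) (hB : B.Monic) :
    chi ψ S c t (A * B) = chi ψ S c t A * chi ψ S c t B := by
  unfold chi
  by_cases h1 : ∀ s ∈ S, A.eval s ≠ 0
  · by_cases h2 : ∀ s ∈ S, B.eval s ≠ 0
    · rw [if_pos h1, if_pos h2, if_pos fun s hs => by simp [h1 s hs, h2 s hs],
        lam_mul S id c t hA hB h1 h2, AddChar.map_add_eq_mul]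
    · rw [if_neg h2, mul_zero, if_neg fun h => h2 fun s hs h3 => h s hs (by simp [h3])]
  · rw [if_neg h1, zero_mul, if_neg fun h => h1 fun s hs h3 => h s hs (by simp [h3])]

lemma sum_chi_eq_zero (hψ : ψ.IsPrimitive) {s₀ : F} (hs₀ : s₀ ∈ S) (hc : c s₀ ≠ 0) (n : ℕ)
    (hn : 2 * S.card < n) : ∑ A ∈ Mon F n, chi ψ S c t A = 0 := by
  set U : F[X] := ∏ s ∈ S.erase s₀, (X - C s) with hU
  set B : F[X] := (X - C s₀) * U ^ 2 with hB
  have hU0 : U.eval s₀ ≠ 0 := by
    rw [hU, eval_prod]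
    exact prod_ne_zero_iff.2 fun s hs => by simpa [sub_eq_zero] using (ne_of_mem_erase hs).symm
  have hU1 : ∀ s ∈ S.erase s₀, U.eval s = 0 := fun s hs => by
    rw [hU, eval_prod]
    exact prod_eq_zero hs (by simp)
  have hdB : B.natDegree + 1 < n := by
    have h1 : U.natDegree = S.card - 1 := by
      rw [hU, natDegree_prod_of_monic _ _ fun i _ => monic_X_sub_C _]
      simp [card_erase_of_mem hs₀]
    have h2 : B.natDegree ≤ (X - C s₀).natDegree + (U ^ 2).natDegree := natDegree_mul_le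
    rw [natDegree_X_sub_C, natDegree_pow, h1] at h2
    have := card_pos.2 ⟨s₀, hs₀⟩
    omega
  have hmem : ∀ (l : F), ∀ A ∈ Mon F n, A + C l * B ∈ Mon F n := by
    intro l A hA
    obtain ⟨h1, h2⟩ := mem_Mon.1 hA
    have h3 : (C l * B).natDegree < A.natDegree := (natDegree_C_mul_le _ _).trans_lt (by omega)
    exact mem_Mon.2 ⟨h1.add_of_left (degree_lt_degree h3),
      (natDegree_add_eq_left_of_natDegree_lt h3).trans h2⟩
  have hshift : ∀ l : F, ∑ A ∈ Mon F n, chi ψ S c t A =
      ∑ A ∈ Mon F n, chi ψ S c t (A + C l * B) := by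
    intro l
    refine sum_nbij' (fun A => A + C (-l) * B) (fun A => A + C l * B) (hmem _) (hmem _) ?_ ?_ ?_ <;>
      intro A _ <;> simp
  have hchi : ∀ (l : F), ∀ A ∈ Mon F n, chi ψ S c t (A + C l * B) =
      chi ψ S c t A * ψ (l * (c s₀ * (-U.eval s₀ ^ 2 / A.eval s₀))) := by
    intro l A hA
    have h1 : ∀ s ∈ S, (A + C l * B).eval s = A.eval s := fun s hs => by
      by_cases h : s = s₀
      · simp [hB, h]
      · simp [hB, hU1 s (mem_erase.2 ⟨h, hs⟩)]
    have h2 : (A + C l * B).nextCoeff = A.nextCoeff := by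
      rw [nextCoeff_of_natDegree_pos (by rw [(mem_Mon.1 (hmem l A hA)).2]; omega),
        nextCoeff_of_natDegree_pos (by rw [(mem_Mon.1 hA).2]; omega),
        (mem_Mon.1 (hmem l A hA)).2, (mem_Mon.1 hA).2, coeff_add, coeff_C_mul,
        coeff_eq_zero_of_natDegree_lt (p := B) (by omega), mul_zero, add_zero]
    have h3 : lam S id c t (A + C l * B) =
        lam S id c t A + l * (c s₀ * (-U.eval s₀ ^ 2 / A.eval s₀)) := by
      rw [lam, lam, h2, ← add_sum_erase _ _ hs₀, ← add_sum_erase _ _ hs₀,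
        sum_congr rfl (g := fun s => c s * (-(derivative A).eval s / A.eval s)) fun s hs => by
          simp [hB, pow_two, hU1 s hs]]
      simp only [id, h1 s₀ hs₀]
      simp [hB]
      ring
    unfold chi
    by_cases h : ∀ s ∈ S, A.eval s ≠ 0
    · rw [if_pos h, if_pos fun s hs => (h1 s hs).symm ▸ h s hs, h3, AddChar.map_add_eq_mul]
    · rw [if_neg h, if_neg fun h' => h fun s hs => h1 s hs ▸ h' s hs, zero_mul]
  have h1 : ∑ _l : F, ∑ A ∈ Mon F n, chi ψ S c t A = 0 := by
    rw [sum_congr rfl fun l _ => (hshift l).trans (sum_congr rfl (hchi l)), sum_comm]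
    refine sum_eq_zero fun A _ => ?_
    rw [← mul_sum, AddChar.sum_mulShift _ hψ]
    by_cases h : A.eval s₀ = 0
    · rw [chi, if_neg fun h' => h' s₀ hs₀ h, zero_mul]
    · simp [hc, hU0, h]
  simpa using h1

variable {E : Type*} [Field E] [Algebra F E] [Algebra.IsAlgebraic F E]

omit [DecidableEq F] [Algebra.IsAlgebraic F E] in
lemma pow_ne_iff (x : E) (s : F) (i : ℕ) :
    x ^ Fintype.card F ^ i = algebraMap F E s ↔ x = algebraMap F E s := by
  rw [← fr_apply]
  nth_rewrite 1 [← (fr F E i).commutes s]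
  exact (fr F E i).injective.eq_iff

omit [DecidableEq F] in
lemma QQ_eval {j : ℕ} {x : E} (hx : x ∈ KK F E j) (s : F) :
    (QQ F j x).eval s ≠ 0 ↔ x ≠ algebraMap F E s := by
  rw [← map_ne_zero (algebraMap F E), ← eval_map_apply, map_QQ hx, eval_prod, prod_ne_zero_iff]
  simp only [eval_sub, eval_X, eval_C, sub_ne_zero, ne_comm (a := algebraMap F E s), Ne,
    pow_ne_iff]
  exact ⟨fun h => h 0 (mem_range.2 (Nat.pos_of_ne_zero (mem_KK.1 hx).1)), fun h _ _ => h⟩

omit [DecidableEq F] in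
lemma lam_QQ {j : ℕ} {x : E} (hx : x ∈ KK F E j) (hS : ∀ s ∈ S, x ≠ algebraMap F E s) :
    algebraMap F E (lam S id c t (QQ F j x)) = ∑ i ∈ range j,
      RR S (algebraMap F E) (fun s => algebraMap F E (c s)) (algebraMap F E t) x ^
        Fintype.card F ^ i := by
  rw [map_lam, map_QQ hx]
  refine (lam_prod _ _ _ _ _ (fun i s hs h => hS s hs ((pow_ne_iff x s i).1 h)) j).trans
    (sum_congr rfl fun i _ => ?_)
  simp [← fr_apply, RR]

open Classical in
lemma card_fiber_le {s₀ : F} (hs₀ : s₀ ∈ S) (hc : c s₀ ≠ 0) (μ : ℕ)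
    (hμ : S.card + 3 ≤ Fintype.card F ^ (μ + 1)) (b : F) :
    ((KK F E (2 * (μ + 1))).filter fun x => (∀ s ∈ S, x ≠ algebraMap F E s) ∧
      lam S id c t (QQ F (2 * (μ + 1)) x) = b).card ≤
      Fintype.card F ^ (μ + 1) * Fintype.card F ^ μ + (2 * S.card + 4) * Fintype.card F ^ (μ + 1) := by
  set Q := Fintype.card F with hQ
  have hQ1 : 1 < Q := Fintype.one_lt_card
  set f := algebraMap F E with hf
  let U : F → E[X] := fun s => ∏ s' ∈ S.erase s, (X - C (f s'))
  set V : E[X] := (X - C (f s₀)) * U s₀ with hV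
  have hVU : ∀ s ∈ S, V = (X - C (f s)) * U s := fun s hs =>
    (mul_prod_erase S (fun s' => (X - C (f s') : E[X])) hs₀).trans
      (mul_prod_erase S (fun s' => (X - C (f s') : E[X])) hs).symm
  have hdU : ∀ s ∈ S, (U s).natDegree + 1 = S.card := fun s hs => by
    simp only [U]
    rw [natDegree_prod_of_monic _ _ fun i _ => monic_X_sub_C _]
    simp [card_erase_add_one hs]
  have hdV : V.natDegree ≤ S.card := by
    refine natDegree_mul_le.trans ?_
    rw [natDegree_X_sub_C, add_comm, hdU s₀ hs₀]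
  set W : E[X] := ∑ s ∈ S, C (f (c s)) * U s + C (f t) * (X * V) with hW
  have hdW : W.natDegree ≤ S.card + 1 := by
    refine (natDegree_add_le _ _).trans (max_le ?_ ?_)
    · refine natDegree_sum_le_of_forall_le _ _ fun s hs => (natDegree_C_mul_le _ _).trans ?_
      have := hdU s hs
      omega
    · refine (natDegree_C_mul_le _ _).trans (natDegree_mul_le.trans ?_)
      rw [natDegree_X]
      omega
  have hU0 : (U s₀).eval (f s₀) ≠ 0 := by
    simp only [U, eval_prod]
    exact prod_ne_zero_iff.2 fun s hs => by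
      simpa [sub_eq_zero] using f.injective.ne (ne_of_mem_erase hs).symm
  have hV0 : V.eval (f s₀) = 0 := by simp [hV]
  have hW0 : W.eval (f s₀) ≠ 0 := by
    rw [hW, eval_add, eval_finsetSum, sum_eq_single s₀]
    · simp [hV0, hU0, hc]
    · intro s _ hs
      simp only [U, eval_mul, eval_prod]
      rw [prod_eq_zero (mem_erase.2 ⟨hs.symm, hs₀⟩) (by simp), mul_zero]
    · exact fun h => absurd hs₀ h
  set G : E[X] := ∑ i ∈ range (μ + 1), W ^ Q ^ i * V ^ (Q ^ μ - Q ^ i) with hG
  have hle : ∀ i ∈ range (μ + 1), Q ^ i ≤ Q ^ μ := fun i hi =>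
    Nat.pow_le_pow_right hQ1.le (Nat.lt_succ_iff.1 (mem_range.1 hi))
  refine stepanov Q (Q ^ μ) (Q ^ (μ + 1)) (S.card + 1) hQ1 (Nat.one_le_pow _ _ (by omega))
    (pow_succ' _ _) hμ (fun g h => by simp only [hQ, ← fr_apply F, map_sub]) (f s₀) (f b) G (U s₀)
    ?_ hU0 ?_ (hdV.trans (Nat.le_succ _)) _ ?_
  · rw [hG, sum_range_succ, eval_add, eval_finsetSum, sum_eq_zero]
    · simp [hW0]
    · intro i hi
      have : Q ^ μ - Q ^ i ≠ 0 := Nat.sub_ne_zero_of_lt (Nat.pow_lt_pow_right hQ1 (mem_range.1 hi))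
      simp [hV0, this]
  · refine natDegree_sum_le_of_forall_le _ _ fun i hi => natDegree_mul_le.trans ?_
    obtain ⟨e, he⟩ := Nat.exists_eq_add_of_le (hle i hi)
    have h1 : (W ^ Q ^ i).natDegree ≤ Q ^ i * (S.card + 1) :=
      natDegree_pow_le.trans (Nat.mul_le_mul_left _ hdW)
    have h2 : (V ^ e).natDegree ≤ e * (S.card + 1) :=
      natDegree_pow_le.trans (Nat.mul_le_mul_left _ (hdV.trans (Nat.le_succ _)))
    rw [he, Nat.add_sub_cancel_left]
    nlinarith
  · intro x hx
    obtain ⟨hx1, hx2, hx3⟩ := mem_filter.1 hx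
    rw [← hV]
    set R := RR S f (fun s => f (c s)) (f t) x with hR
    have hWx : W.eval x = R * V.eval x := by
      rw [hW, hR, RR, add_mul, sum_mul, eval_add, eval_finsetSum]
      congr 1
      · refine sum_congr rfl fun s hs => ?_
        have := sub_ne_zero.2 (hx2 s hs)
        rw [hVU s hs]
        simp only [eval_mul, eval_C, eval_sub, eval_X]
        field_simp
      · simp [mul_assoc]
    set g := ∑ i ∈ range (μ + 1), R ^ Q ^ i with hg
    have hGx : G.eval x = g * V.eval x ^ Q ^ μ := by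
      rw [hG, hg, eval_finsetSum, sum_mul]
      refine sum_congr rfl fun i hi => ?_
      rw [eval_mul, eval_pow, eval_pow, hWx, mul_pow, mul_assoc, ← pow_add,
        Nat.add_sub_cancel' (hle i hi)]
    have hb : f b = g + g ^ Q ^ (μ + 1) := by
      rw [← hx3, lam_QQ S c t hx1 hx2, two_mul, sum_range_add, hg, hQ, ← fr_apply F, map_sum]
      congr 1
      refine sum_congr rfl fun i _ => ?_
      rw [fr_apply, ← pow_mul, ← pow_add, add_comm i]
    refine ⟨?_, ?_, ?_⟩
    · rw [hV, eval_mul]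
      refine mul_ne_zero (by simpa [sub_eq_zero] using hx2 s₀ hs₀) ?_
      simp only [U, eval_prod]
      exact prod_ne_zero_iff.2 fun s hs => by
        simpa [sub_eq_zero] using hx2 s (mem_of_mem_erase hs)
    · rw [← pow_add, ← two_mul, hQ, ← fr_apply F, map_sub, fr_apply, (mem_KK.1 hx1).2, hf,
        AlgHom.commutes]
    · rw [hGx, hb]
      ring

lemma norm_sum_KK_le [IsAlgClosed E] (hψ : ψ.IsPrimitive) {s₀ : F} (hs₀ : s₀ ∈ S) (hc : c s₀ ≠ 0)
    (μ : ℕ) (hμ : S.card + 3 ≤ Fintype.card F ^ (μ + 1)) :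
    ‖∑ x ∈ KK F E (2 * (μ + 1)), chi ψ S c t (QQ F (2 * (μ + 1)) x)‖ ≤
      (Fintype.card F * (2 * S.card + 4) + S.card : ℝ) * (Fintype.card F : ℝ) ^ (μ + 1) := by
  classical
  set Q := Fintype.card F with hQ
  set j := 2 * (μ + 1) with hj
  set K' := (KK F E j).filter fun x => ∀ s ∈ S, x ≠ algebraMap F E s with hK'
  let z : F → ℕ := fun b => (K'.filter fun x => lam S id c t (QQ F j x) = b).card
  set B := Q ^ (μ + 1) * Q ^ μ + (2 * S.card + 4) * Q ^ (μ + 1) with hB
  have hz : ∀ b, z b ≤ B := fun b => by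
    simp only [z, hK', filter_filter]
    convert card_fiber_le (E := E) S c t hs₀ hc μ hμ b
  have hsum : ∑ b, z b = K'.card := (card_eq_sum_card_fiberwise fun _ _ => mem_univ _).symm
  have hcard : Q ^ j ≤ K'.card + S.card := by
    rw [← card_KK (E := E) (by omega)]
    refine (card_le_card (t := K' ∪ S.image (algebraMap F E)) fun x hx => ?_).trans
      ((card_union_le _ _).trans (Nat.add_le_add_left card_image_le _))
    by_cases h : ∀ s ∈ S, x ≠ algebraMap F E s
    · exact mem_union_left _ (mem_filter.2 ⟨hx, h⟩)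
    · push Not at h
      obtain ⟨s, hs, rfl⟩ := h
      exact mem_union_right _ (mem_image_of_mem _ hs)
  have h0 : ∑ b, ψ b = 0 := by simpa using AddChar.sum_mulShift 1 hψ
  have h1 : ∑ x ∈ KK F E j, chi ψ S c t (QQ F j x) = ∑ b, ((z b : ℂ) - B) * ψ b := by
    simp only [sub_mul, sum_sub_distrib, ← mul_sum, h0, mul_zero, sub_zero]
    rw [sum_congr rfl (g := fun x => if ∀ s ∈ S, x ≠ algebraMap F E s then
      ψ (lam S id c t (QQ F j x)) else 0) fun x hx => by simp only [chi, QQ_eval hx],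
      ← sum_filter, ← hK', ← sum_fiberwise K' fun x => lam S id c t (QQ F j x)]
    refine sum_congr rfl fun b _ => ?_
    rw [sum_congr rfl fun x hx => by rw [(mem_filter.1 hx).2], sum_const, nsmul_eq_mul]
  rw [h1]
  refine (norm_sum_le _ _).trans ?_
  have h2 : ∀ b, ‖((z b : ℂ) - B) * ψ b‖ = (B : ℝ) - z b := fun b => by
    rw [norm_mul, AddChar.norm_apply, mul_one, norm_sub_rev, ← Nat.cast_sub (hz b),
      Complex.norm_natCast, Nat.cast_sub (hz b)]
  simp only [h2, sum_sub_distrib, sum_const, card_univ, nsmul_eq_mul, ← Nat.cast_sum, hsum]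
  have h3 : (Q : ℝ) ^ j ≤ K'.card + S.card := by exact_mod_cast hcard
  have h4 : (1 : ℝ) ≤ (Q : ℝ) ^ (μ + 1) := one_le_pow₀ (by exact_mod_cast Fintype.card_pos)
  have h5 : (Q : ℝ) ^ j = Q * (Q ^ (μ + 1) * Q ^ μ) := by rw [hj]; ring
  rw [hB, ← hQ]
  push_cast
  nlinarith [Nat.cast_nonneg (α := ℝ) S.card]

/-- Weil's bound over an arbitrary finite field -/
theorem weil_rational_field (hψ : ψ.IsPrimitive) (hc : ∃ s ∈ S, c s ≠ 0) :
    ‖∑ x ∈ univ \ S, ψ (∑ s ∈ S, c s * (x - s)⁻¹ + t * x)‖ ≤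
      2 * S.card * Real.sqrt (Fintype.card F) := by
  obtain ⟨s₀, hs₀, hc⟩ := hc
  have h := norm_first_le (fun n => ∑ A ∈ Mon F n, chi ψ S c t A)
    (fun j => ∑ x ∈ KK F (AlgebraicClosure F) j, chi ψ S c t (QQ F j x)) (2 * S.card)
    (by
      have : Mon F 0 = {1} := by
        ext A
        simp only [mem_Mon, mem_singleton]
        exact ⟨fun h => (h.1.natDegree_eq_zero).1 h.2, fun h => by simp [h]⟩
      simp [this, chi, lam, nextCoeff])
    (sum_chi_eq_zero ψ S c t hψ hs₀ hc) (newton _ _ (chi_mul ψ S c t))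
    (Fintype.card F * (2 * S.card + 4) + S.card : ℝ) (Fintype.card F)
    (by exact_mod_cast Fintype.card_pos) (by
      filter_upwards [eventually_ge_atTop (S.card + 3)] with ν hν
      obtain ⟨μ, rfl⟩ : ∃ μ, ν = μ + 1 := ⟨ν - 1, by omega⟩
      exact norm_sum_KK_le ψ S c t hψ hs₀ hc μ
        (hν.trans (Nat.lt_pow_self Fintype.one_lt_card).le))
  have e : ∑ A ∈ Mon F 1, chi ψ S c t A =
      ∑ x ∈ univ \ S, ψ (∑ s ∈ S, c s * (x - s)⁻¹ + t * x) := by
    rw [← sum_bij (s := univ) (t := Mon F 1) (fun x _ => X - C x)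
      (f := fun x => chi ψ S c t (X - C x)) (fun x _ => mem_Mon.2 ⟨monic_X_sub_C x, by simp⟩)
      (fun x _ y _ h => by simpa using h)
      (fun A hA => ⟨-A.coeff 0, mem_univ _, by
        simpa using ((mem_Mon.1 hA).1.eq_X_add_C (mem_Mon.1 hA).2).symm⟩) fun _ _ => rfl,
      sdiff_eq_filter, sum_filter]
    refine sum_congr rfl fun x _ => ?_
    rw [chi, lam_X_sub_C]
    refine if_congr ?_ rfl rfl
    simp only [eval_sub, eval_X, eval_C, sub_ne_zero]
    exact ⟨fun h hx => h x hx rfl, fun h s hs e => h (e ▸ hs)⟩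
  simpa [e] using h

theorem weil_rational (n : ℕ) : ∃ C : ℝ, 0 ≤ C ∧ ∀ (p : ℕ) [Fact p.Prime] (S : Finset (ZMod p))
    (c : ZMod p → ZMod p) (t : ZMod p), S.card ≤ n → (∃ s ∈ S, c s ≠ 0) →
    ‖∑ x ∈ Finset.univ \ S, ZMod.stdAddChar (∑ s ∈ S, c s * (x - s)⁻¹ + t * x)‖ ≤
      C * Real.sqrt p := by
  refine ⟨2 * n, by positivity, fun p _ S c t hS hc => ?_⟩
  have h := weil_rational_field ZMod.stdAddChar S c t (ZMod.isPrimitive_stdAddChar p) hc
  rw [ZMod.card] at h
  refine h.trans ?_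
  gcongr

end

end Pool.Agent.Lib.Weil
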