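import Mathlib.Algebra.Polynomial.Taylor
import Mathlib.Algebra.Polynomial.AlgebraMap
import Mathlib.Algebra.Polynomial.RingDivision
import Mathlib.Algebra.Polynomial.BigOperators
import Mathlib.RingTheory.Coprime.Lemmas
import Mathlib.LinearAlgebra.Dimension.Constructions
import Mathlib.LinearAlgebra.FiniteDimensional.Lemmas
import Mathlib.Tactic.LinearCombination

/-! The auxiliary polynomial of Stepanov and Bombieri for Artin-Schreier curves. -/

namespace Pool.Agent.Lib.Weil

open Polynomial Finset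

variable {E : Type*} [Field E]

/-- terms vanishing to distinct orders at a point are independent -/
lemma coeff_zero_of_orders (s : E) (N : ℕ) (v : ℕ → E) (u : ℕ → E[X])
    (hu : ∀ n, (u n).eval s ≠ 0) (h : ∑ n ∈ range N, C (v n) * ((X - C s) ^ n * u n) = 0) :
    ∀ n < N, v n = 0 := by
  intro n
  induction n using Nat.strong_induction_on with
  | _ n ih =>
    intro hn
    have h1 : (X - C s) ^ n * ∑ m ∈ range N,
        (if n ≤ m then C (v m) * ((X - C s) ^ (m - n) * u m) else 0) = 0 := by
      rw [mul_sum]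
      refine (sum_congr rfl fun m hm => ?_).trans h
      split_ifs with h2
      · obtain ⟨k, rfl⟩ := Nat.exists_eq_add_of_le h2
        rw [Nat.add_sub_cancel_left]
        ring
      · rw [ih m (by omega) (mem_range.1 hm)]
        simp
    have h2 := (mul_eq_zero.1 h1).resolve_left (pow_ne_zero _ (X_sub_C_ne_zero s))
    have h3 := congrArg (eval s) h2
    rw [eval_finsetSum, sum_eq_single n] at h3
    · simpa [hu n] using h3
    · intro m _ hm
      split_ifs with h4
      · have : m - n ≠ 0 := by omega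
        simp [this]
      · simp
    · intro h4
      exact absurd (mem_range.2 hn) h4

lemma card_mul_le_natDegree (h : E[X]) (h0 : h ≠ 0) (Z : Finset E) (M : ℕ)
    (hZ : ∀ x ∈ Z, (X - C x) ^ M ∣ h) : M * Z.card ≤ h.natDegree := by
  have h1 : ∏ x ∈ Z, (X - C x) ^ M ∣ h := by
    refine Finset.prod_dvd_of_coprime ?_ hZ
    intro a _ b _ hab
    exact (pairwise_coprime_X_sub_C (s := id) Function.injective_id hab).pow
  have h2 := natDegree_le_of_dvd h1 h0
  rw [natDegree_prod_of_monic _ _ fun x _ => (monic_X_sub_C x).pow M] at h2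
  simpa [natDegree_pow, mul_comm] using h2

lemma pow_dvd_of_hasse (f : E[X]) (x : E) (M : ℕ)
    (h : ∀ m < M, (hasseDeriv m f).eval x = 0) : (X - C x) ^ M ∣ f := by
  rw [X_sub_C_pow_dvd_iff, X_pow_dvd_iff]
  intro m hm
  rw [← taylor_apply, taylor_coeff, h m hm]

/-- Stepanov's bound: `M = Q * M'` is a power of the characteristic, `T = M * M'`. -/
theorem stepanov (Q M' M D : ℕ) (hQ : 2 ≤ Q) (hM' : 1 ≤ M') (hM : M = Q * M')
    (hD : D + 2 ≤ M) (hfr : ∀ f g : E[X], (f - g) ^ M = f ^ M - g ^ M)
    (s b : E) (G V₀ : E[X]) (hG : G.eval s ≠ 0) (hV₀ : V₀.eval s ≠ 0)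
    (hdG : G.natDegree ≤ D * M') (hdV : ((X - C s) * V₀).natDegree ≤ D)
    (Z : Finset E) (hZ : ∀ x ∈ Z, ((X - C s) * V₀).eval x ≠ 0 ∧ (x - s) ^ (M * M) = x - s ∧
      G.eval x ^ M * ((X - C s) * V₀).eval x ^ M' =
        (b * ((X - C s) * V₀).eval x ^ M' - G.eval x) * ((X - C s) * V₀).eval x ^ (M * M')) :
    Z.card ≤ M * M' + (2 * D + 2) * M := by
  classical
  set V := (X - C s) * V₀ with hV
  set T := M * M' with hT
  set Λ := M' + D + 2 with hΛ
  set N := M * M * Λ with hN
  set Dg := T + D * M + Λ with hDg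
  have hM0 : 0 < M := by omega
  have hT0 : 0 < T := by positivity
  have hM'M : M' < M := by nlinarith
  have hQT : Q * T = M * M := by rw [hT]; nth_rewrite 3 [hM]; ring
  let r : ℕ → ℕ := fun n => n / T % Q
  let l : ℕ → ℕ := fun n => n / T / Q
  have hr : ∀ n, r n ≤ Q - 1 := fun n => by
    have := Nat.mod_lt (n / T) (show 0 < Q by omega)
    simp only [r]
    omega
  have hl : ∀ n < N, l n < Λ := fun n hn => by
    simp only [l]
    rw [Nat.div_div_eq_div_mul, Nat.div_lt_iff_lt_mul (by positivity), mul_comm T, hQT]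
    rw [hN] at hn
    linarith [mul_comm Λ (M * M)]
  have hn : ∀ n, n = n % T + (T * r n + M * M * l n) := fun n => by
    have h1 := Nat.mod_add_div n T
    have h2 := Nat.mod_add_div (n / T) Q
    simp only [r, l]
    rw [← hQT, mul_comm Q T, mul_assoc T Q, ← mul_add, h2, h1]
  let β : ℕ → E[X] := fun n => G ^ (Q - 1 - r n) * V ^ (r n * M') * (X - C s) ^ (M * l n)
  let A : ℕ → E[X] := fun n =>
    (C b * V ^ M' - G) ^ (Q - 1 - r n) * V ^ (r n * M') * (X - C s) ^ l n
  have hVp : ∀ k, (V ^ k).natDegree ≤ k * D := fun k =>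
    natDegree_pow_le.trans (Nat.mul_le_mul_left _ hdV)
  have key : ∀ (n : ℕ) (P : E[X]), P.natDegree ≤ D * M' →
      (P ^ (Q - 1 - r n) * V ^ (r n * M')).natDegree ≤ D * M := by
    intro n P hP
    refine natDegree_mul_le.trans ?_
    have h1 : (P ^ (Q - 1 - r n)).natDegree ≤ (Q - 1 - r n) * (D * M') :=
      natDegree_pow_le.trans (Nat.mul_le_mul_left _ hP)
    have h2 := hVp (r n * M')
    obtain ⟨e, he⟩ := Nat.exists_eq_add_of_le (hr n)
    have h3 : Q = r n + e + 1 := by omega
    have h4 : Q - 1 - r n = e := by omega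
    rw [h4] at h1 ⊢
    rw [hM]
    nth_rewrite 1 [h3]
    nlinarith [Nat.zero_le (D * M')]
  have hXp : ∀ k, ((X - C s) ^ k).natDegree = k := fun k => by simp [natDegree_pow]
  have hdA : ∀ n < N, (A n).natDegree < D * M + Λ := fun n hn => by
    have h1 : (C b * V ^ M' - G).natDegree ≤ D * M' := by
      refine (natDegree_sub_le _ _).trans (max_le ?_ hdG)
      exact (natDegree_C_mul_le _ _).trans ((hVp M').trans (mul_comm _ _).le)
    have h2 := key n _ h1
    have h3 := hl n hn
    refine natDegree_mul_le.trans_lt ?_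
    rw [hXp]
    omega
  let P : ℕ → ℕ → E[X] := fun m n => hasseDeriv m ((X - C s) ^ (n % T)) * A n
  have hdP : ∀ m, ∀ n < N, (P m n).natDegree < Dg := fun m n hn => by
    refine natDegree_mul_le.trans_lt ?_
    have h1 := natDegree_hasseDeriv_le ((X - C s) ^ (n % T)) m
    rw [hXp] at h1
    have h2 := Nat.mod_lt n hT0
    have h3 := hdA n hn
    omega
  let Φ : (Fin N → E) →ₗ[E] (Fin M × Fin Dg → E) :=
    { toFun := fun v me => ∑ n : Fin N, v n * (P me.1 n).coeff me.2
      map_add' := fun v w => by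
        ext me
        simp [add_mul, sum_add_distrib]
      map_smul' := fun c v => by
        ext me
        simp [mul_sum, mul_assoc] }
  have hdim : Module.finrank E (Fin M × Fin Dg → E) < Module.finrank E (Fin N → E) := by
    simp only [Module.finrank_fintype_fun_eq_card, Fintype.card_prod, Fintype.card_fin]
    rw [hN, mul_assoc]
    refine Nat.mul_lt_mul_of_pos_left ?_ hM0
    rw [hDg, hT, hΛ]
    nlinarith
  obtain ⟨w, hw, hw0⟩ := Submodule.exists_mem_ne_zero_of_ne_bot
    (LinearMap.ker_ne_bot_of_finrank_lt (f := Φ) hdim)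
  let v : ℕ → E := fun n => if h : n < N then w ⟨n, h⟩ else 0
  have hvan : ∀ m < M, ∑ n ∈ range N, C (v n) * P m n = 0 := by
    intro m hm
    ext e
    rw [finsetSum_coeff, coeff_zero]
    by_cases he : e < Dg
    · have := congrFun (LinearMap.mem_ker.1 hw) (⟨m, hm⟩, ⟨e, he⟩)
      rw [sum_range]
      simpa [Φ, v] using this
    · refine sum_eq_zero fun n hn => ?_
      rw [coeff_C_mul, coeff_eq_zero_of_natDegree_lt
        ((hdP m n (mem_range.1 hn)).trans_le (not_lt.1 he)), mul_zero]
  let h : E[X] := ∑ n ∈ range N, C (v n) * ((X - C s) ^ (n % T) * β n ^ M)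
  have h0 : h ≠ 0 := by
    intro hh
    apply hw0
    have := coeff_zero_of_orders s N v
      (fun n => (G ^ (Q - 1 - r n) * V₀ ^ (r n * M')) ^ M) (fun n => by simp [hG, hV₀]) (by
        rw [← hh]
        refine sum_congr rfl fun n _ => ?_
        congr 1
        nth_rewrite 1 [hn n]
        simp only [β, hV, hT, mul_pow (X - C s) V₀]
        ring)
    ext n
    simpa [v] using this n n.2
  have hdh : h.natDegree ≤ M * (M * (D + Λ)) := by
    refine natDegree_sum_le_of_forall_le _ _ fun n hn => ?_
    refine (natDegree_C_mul_le _ _).trans (natDegree_mul_le.trans ?_)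
    have h1 : (β n).natDegree ≤ D * M + M * l n := by
      refine natDegree_mul_le.trans ?_
      rw [hXp]
      exact Nat.add_le_add_right (key n G hdG) _
    have h2 : (β n ^ M).natDegree ≤ M * (D * M + M * l n) :=
      natDegree_pow_le.trans (Nat.mul_le_mul_left _ h1)
    have h3 := hl n (mem_range.1 hn)
    have h4 := Nat.mod_lt n hT0
    have h5 : T ≤ M * M := Nat.mul_le_mul_left _ hM'M.le
    have h6 : M * (M * (l n + 1)) ≤ M * (M * Λ) := by gcongr; omega
    rw [hXp]
    nlinarith
  have hdvd : ∀ x ∈ Z, (X - C x) ^ M ∣ h := by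
    intro x hx
    obtain ⟨h1, h2, h3⟩ := hZ x hx
    have e : h = ∑ n ∈ range N, C (v n) * ((X - C s) ^ (n % T) * (β n - C ((β n).eval x)) ^ M) +
        ∑ n ∈ range N, (v n * (β n).eval x ^ M) • (X - C s) ^ (n % T) := by
      rw [← sum_add_distrib]
      refine sum_congr rfl fun n _ => ?_
      rw [hfr, smul_eq_C_mul, C_mul, C_pow]
      ring
    rw [e]
    refine dvd_add (dvd_sum fun n _ => ?_) (pow_dvd_of_hasse _ _ _ fun m hm => ?_)
    · exact ((pow_dvd_pow_of_dvd X_sub_C_dvd_sub_C_eval M).mul_left _).mul_left _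
    · have h4 := congrArg (eval x) (hvan m hm)
      have h5 : ∀ n, (β n).eval x ^ M * V.eval x ^ ((Q - 1) * M') =
          (A n).eval x * V.eval x ^ ((Q - 1) * T) := by
        intro n
        obtain ⟨e, he⟩ := Nat.exists_eq_add_of_le (hr n)
        have h6 : Q - 1 - r n = e := by omega
        simp only [β, A, eval_mul, eval_pow, eval_sub, eval_X, eval_C]
        rw [h6, he]
        have h7 : (x - s) ^ (M * l n * M) = (x - s) ^ l n := by
          rw [show M * l n * M = M * M * l n by ring, pow_mul, h2]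
        have h8 := congrArg (· ^ e) h3
        rw [mul_pow, mul_pow, ← pow_mul (x - s), h7]
        simp only [mul_pow] at h8
        calc _ = ((eval x G ^ M) ^ e * (eval x V ^ M') ^ e) *
              (eval x V ^ (r n * T) * eval x V ^ (r n * M') * (x - s) ^ l n) := by
              rw [hT]; ring
          _ = _ := by rw [h8]; ring
      refine mul_right_cancel₀ (pow_ne_zero ((Q - 1) * M') h1) ?_
      rw [map_sum, eval_finsetSum, sum_mul, zero_mul]
      rw [eval_finsetSum, eval_zero] at h4
      rw [← zero_mul (V.eval x ^ ((Q - 1) * T)), ← h4, sum_mul]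
      refine sum_congr rfl fun n _ => ?_
      simp only [P, map_smul, eval_smul, smul_eq_mul, eval_mul, eval_C]
      linear_combination v n * eval x (hasseDeriv m ((X - C s) ^ (n % T))) * h5 n
  have hfin := (card_mul_le_natDegree h h0 Z M hdvd).trans hdh
  have := Nat.le_of_mul_le_mul_left hfin hM0
  rw [hΛ] at this
  rw [hT]
  nlinarith

end Pool.Agent.Lib.Weil
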